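import Pool.Agent.K4H52.TW.Twi
import Pool.Agent.K4H13.CV.Asm5

/-!
# Project CV, real twists: the product for a general Hecke orbit
-/

set_option autoImplicit false

open Complex Filter Topology Set UpperHalfPlane MatrixGroups CongruenceSubgroup MeasureTheory
open scoped Manifold ModularForm

namespace Pool.Agent.K4H13.CV

open Pool.Agent.TH940 (prim Fr)
open Pool.Agent.Y18.BSD
open W388.LV (SF bf pet IsNewBasis)

variable {N : ℕ} [NeZero N]

lemma det_rot {β : Type*} [Fintype β] [DecidableEq β] (v : β ⊕ β → β → ℂ) :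
    |(RM (fun i f => Complex.I * v i f)).det| = |(RM v).det| := by
  have e : RM (fun i f => Complex.I * v i f) = Matrix.of fun i j =>
      Sum.elim (fun _ : β => (-1 : ℝ)) (fun _ : β => (1 : ℝ)) j *
        ((RM v).submatrix id (Equiv.sumComm β β)) i j := by
    ext i j
    rcases j with f | f <;> simp [RM]
  rw [e, Matrix.det_mul_row, Matrix.det_permute', abs_mul, abs_mul, Finset.abs_prod]
  have h1 : ∏ i : β ⊕ β, |Sum.elim (fun _ : β => (-1 : ℝ)) (fun _ : β => (1 : ℝ)) i| = 1 :=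
    Finset.prod_eq_one fun i _ => by rcases i with i | i <;> simp
  have h2 : |(((Equiv.Perm.sign (Equiv.sumComm β β) : ℤˣ) : ℤ) : ℝ)| = 1 := by
    rcases Int.units_eq_one_or (Equiv.Perm.sign (Equiv.sumComm β β)) with h | h <;> rw [h] <;> simp
  rw [h1, h2, one_mul, one_mul]

/-- multiplication by a constant -/
def muc (B : Finset (Cf2 N)) (c : ℂ) : (B → ℂ) →+ (B → ℂ) where
  toFun v := fun f => c * v f
  map_zero' := by funext f; simp
  map_add' v w := by funext f; simp [mul_add]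

open Classical in
/-- **The product for a general Hecke orbit.** -/
theorem prodG (H : HYP) (hN : N.Prime) (h2 : N ≠ 2) {B : Finset (Cf2 N)}
    (hB : IsNewBasis N 2 B) (I : B → ℝ) (s : ℝ)
    (hs : ∀ f : B, I f ≠ 0 → W388.IsNewf N 2 f.1 s) (c : ℂ) (hc : c = 1 ∨ c = Complex.I)
    (hm : ∀ n : ℕ, n.Coprime N → (fun f : B => c * (co f.1 n * (I f : ℂ))) ∈ LL B) :
    1 / (N : ℝ) ^ (330 * B.card) ≤ ∏ f ∈ (Finset.univ : Finset B).filter (fun f => I f ≠ 0), |I f| := by
  rcases Nat.eq_zero_or_pos B.card with h0 | hg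
  · have he : IsEmpty B := by
      rw [Finset.card_eq_zero] at h0
      rw [h0]
      infer_instance
    rw [Finset.univ_eq_empty, Finset.filter_empty, Finset.prod_empty, h0]
    norm_num
  have hN3 := three_le hN h2
  have hN0 : (0 : ℝ) < N := by linarith
  have hN1 : (1 : ℝ) ≤ N := by linarith
  have hc0 : c ≠ 0 := by rcases hc with rfl | rfl; exacts [one_ne_zero, Complex.I_ne_zero]
  have hcn : ‖c‖ = 1 := by rcases hc with rfl | rfl <;> simp
  obtain ⟨δ, hδ1, hδ2⟩ := gen N hN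
  set F : Finset B := (Finset.univ : Finset B).filter (fun f => I f ≠ 0) with hFdef
  have hF : ∀ f ∈ F, W388.IsNewf N 2 f.1 s := fun f hf => hs f (Finset.mem_filter.1 hf).2
  obtain ⟨n, hn1, hn2⟩ := exists_det (F := F) (S := {n : ℕ | n ≤ 100 * N ^ 2 ∧ n.Coprime N})
    (fun n f => (co f.1.1 n).re) (fun w hw => twi N hN B hB F s hF w hw)
  have hspan := span_short H hN h2 hB δ hδ2
  have key := detIneq2 ((LL B).comap (muc B c)) (1 / (N : ℝ) ^ (296 * B.card))
    (fun v hv hd => ?_) (fun i f => c⁻¹ * pv B (δ i) f) (fun i => ?_)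
    (10 ^ 4 * (N : ℝ) ^ 4) ?_ ?_ ?_ F I (fun f hf => (Finset.mem_filter.1 hf).2)
    (fun i j => (co j.1.1 (n i)).re) hn2 ?_ ?_
  · -- numerics
    rw [Fintype.card_coe] at key
    have hc := card_le H hN h2 hB
    have s1 := (dimS H hN h2 hB).1
    rw [s1] at hc
    have h10 : (10 : ℝ) ≤ (N : ℝ) ^ 3 := by
      calc (10 : ℝ) ≤ 3 ^ 3 := by norm_num
        _ ≤ (N : ℝ) ^ 3 := by gcongr
    have k1 : ((2 * B.card : ℕ) : ℝ) ^ (2 * B.card) ≤ (N : ℝ) ^ (2 * B.card) := by
      have : ((2 * B.card : ℕ) : ℝ) ≤ N := by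
        have : 2 * B.card ≤ N := by omega
        exact_mod_cast this
      gcongr
    have k2 : (10 ^ 4 * (N : ℝ) ^ 4) ^ (2 * B.card) ≤ (N : ℝ) ^ (32 * B.card) := by
      calc (10 ^ 4 * (N : ℝ) ^ 4) ^ (2 * B.card) ≤ (((N : ℝ) ^ 3) ^ 4 * (N : ℝ) ^ 4) ^ (2 * B.card) := by
            gcongr
        _ = (N : ℝ) ^ (32 * B.card) := by
            rw [← pow_mul, ← pow_add, ← pow_mul]
            congr 1
            ring
    have hP0 : 0 ≤ ∏ f ∈ F, |I f| := Finset.prod_nonneg fun f _ => abs_nonneg _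
    have k4 : 1 / (N : ℝ) ^ (296 * B.card) ≤ (N : ℝ) ^ (34 * B.card) * ∏ f ∈ F, |I f| := by
      refine key.trans ?_
      calc _ ≤ (N : ℝ) ^ (2 * B.card) * (N : ℝ) ^ (32 * B.card) * ∏ f ∈ F, |I f| :=
            mul_le_mul_of_nonneg_right (mul_le_mul k1 k2 (by positivity) (by positivity)) hP0
        _ = (N : ℝ) ^ (34 * B.card) * ∏ f ∈ F, |I f| := by
            rw [← pow_add]
            congr 2
            ring
    rw [div_le_iff₀ (by positivity)] at k4 ⊢
    calc (1 : ℝ) ≤ ((N : ℝ) ^ (34 * B.card) * ∏ f ∈ F, |I f|) * (N : ℝ) ^ (296 * B.card) := k4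
      _ = (∏ f ∈ F, |I f|) * ((N : ℝ) ^ (34 * B.card) * (N : ℝ) ^ (296 * B.card)) := by ring
      _ = _ := by
        rw [← pow_add]
        congr 2
        ring
  · -- kappa
    have h3 : |(RM (fun i f => c * v i f)).det| = |(RM v).det| := by
      rcases hc with rfl | rfl
      · simp only [one_mul]
      · exact det_rot v
    rw [← h3]
    refine kappa H hN h2 hB hg _ (fun i => hv i) ?_
    intro h4
    rw [h4, abs_zero] at h3
    exact hd (abs_eq_zero.1 h3.symm)
  · -- membership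
    have : (muc B c) (fun f => c⁻¹ * pv B (δ i) f) = pv B (δ i) := by
      funext f
      change c * (c⁻¹ * pv B (δ i) f) = _
      rw [mul_inv_cancel_left₀ hc0]
    rw [AddSubgroup.mem_comap, this]
    exact pv_mem B _
  · have : (1 : ℝ) ≤ (N : ℝ) ^ 4 := one_le_pow₀ hN1
    linarith
  · intro i f
    obtain ⟨ε, hε⟩ := hB.newf f.1 f.2
    have e1 := per_bd f.1 (coef N hN f.1 ε hε) (δ i) ((N : ℝ) ^ 2) (one_le_pow₀ hN1)
      (by
        have := hδ1 i
        rw [← Int.cast_abs]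
        exact_mod_cast this)
    have e2 : ‖c⁻¹ * pv B (δ i) f‖ = ‖per f.1 (δ i)‖ := by
      rw [norm_mul, norm_inv, hcn, inv_one, one_mul]
      rfl
    rw [e2]
    refine e1.trans ?_
    have : (0 : ℝ) ≤ (N : ℝ) ^ 4 := by positivity
    calc 8 * ((N : ℝ) ^ 2) ^ 2 = 8 * (N : ℝ) ^ 4 := by ring
      _ ≤ _ := by linarith
  · -- the span
    let L : (B → ℂ) →ₗ[ℝ] (B → ℂ) :=
      { toFun := fun v f => c⁻¹ * v f
        map_add' := fun v w => by funext f; simp [mul_add]
        map_smul' := fun r v => by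
          funext f
          simp only [Pi.smul_apply, RingHom.id_apply, Complex.real_smul]
          ring }
    have h3 : (Set.range fun i => (fun f => c⁻¹ * pv B (δ i) f)) = L '' (Set.range fun i => pv B (δ i)) := by
      rw [← Set.range_comp]
      rfl
    rw [h3, Submodule.span_image, hspan, Submodule.map_top, LinearMap.range_eq_top]
    intro v
    refine ⟨fun f => c * v f, ?_⟩
    funext f
    change c⁻¹ * (c * v f) = v f
    rw [inv_mul_cancel_left₀ hc0]
  · intro i j
    obtain ⟨ε, hε⟩ := hB.newf j.1.1 j.1.2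
    refine (Complex.abs_re_le_norm _).trans ((coef N hN j.1.1 ε hε (n i)).trans ?_)
    have e1 : ((n i : ℕ) : ℝ) ≤ 100 * (N : ℝ) ^ 2 := by
      have := (hn1 i).1
      exact_mod_cast this
    calc ((n i : ℕ) : ℝ) ^ 2 ≤ (100 * (N : ℝ) ^ 2) ^ 2 := by gcongr
      _ = _ := by ring
  · intro i
    rw [AddSubgroup.mem_comap]
    refine (congrArg (· ∈ LL B) ?_).mp (hm (n i) (hn1 i).2)
    funext f
    change c * (co f.1 (n i) * (I f : ℂ)) =
      c * (if h : f ∈ F then (((co f.1 (n i)).re * I f : ℝ) : ℂ) else 0)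
    by_cases h : f ∈ F
    · rw [dif_pos h]
      obtain ⟨ε, hε⟩ := hB.newf f.1 f.2
      rw [Complex.ofReal_mul, ← co_real hε]
    · rw [dif_neg h]
      have e1 : I f = 0 := by
        by_contra h3
        exact h (Finset.mem_filter.2 ⟨Finset.mem_univ _, h3⟩)
      rw [e1, Complex.ofReal_zero, mul_zero, mul_zero]

end Pool.Agent.K4H13.CV
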