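import Pool.Agent.K4H52.TW.Twm
import Pool.Agent.K4H13.CV.Lv
import Pool.Agent.K4H67.TV.Gauss

/-!
# Project CV, real twists: the twisted L-functions
-/

set_option autoImplicit false

open Complex Filter Topology Set UpperHalfPlane MatrixGroups CongruenceSubgroup ZMod

namespace Pool.Agent.K4H13.CV

open Pool.Agent.TH940 (prim prim_deriv Fr prim_fricke Pers prim_near prim_line exp_norm coeff_bd mellin2)
open Pool.Agent.Y18.BSD
open Pool.Agent.W440.TW (t_twist)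

variable {N : ℕ} [NeZero N]

/-- `L` is the entire continuation of `∑ χ(n) λ_f(n) n^(-s)` -/
structure IsLt (f : Cf2 N) {q : ℕ} (χ : DirichletCharacter ℂ q) (L : ℂ → ℂ) : Prop where
  diff : Differentiable ℂ L
  eq : ∀ s : ℂ, 3 < s.re →
    L s = ∑' n : ℕ, χ (n : ZMod q) * (W388.lamf f n : ℂ) * (n : ℂ) ^ (-s)

lemma IsLt.unique {f : Cf2 N} {q : ℕ} {χ : DirichletCharacter ℂ q} {L L' : ℂ → ℂ}
    (h : IsLt f χ L) (h' : IsLt f χ L') : L = L' := by
  have hFa : AnalyticOnNhd ℂ L univ := fun z _ => h.diff.analyticAt z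
  have hGa : AnalyticOnNhd ℂ L' univ := fun z _ => h'.diff.analyticAt z
  refine hFa.eq_of_eventuallyEq hGa (z₀ := ((4 : ℝ) : ℂ)) ?_
  have : ∀ᶠ z in 𝓝 (((4 : ℝ)) : ℂ), 3 < z.re := by
    refine (Complex.continuous_re.isOpen_preimage _ isOpen_Ioi).mem_nhds ?_
    show (3 : ℝ) < (((4 : ℝ)) : ℂ).re
    rw [Complex.ofReal_re]
    norm_num
  filter_upwards [this] with z hz
  rw [h.eq z hz, h'.eq z hz]

lemma exists_IsLt {f : Cf2 N} {ε : ℝ} (hf : W388.IsNewf N 2 f ε) {q : ℕ} [NeZero q]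
    (hq : q.Coprime N) {χ : DirichletCharacter ℂ q} (hχ : χ.IsPrimitive) (hχ2 : χ.IsQuadratic) :
    ∃ L : ℂ → ℂ, IsLt f χ L ∧ gaussSum χ (stdAddChar (N := q)) * L (1 / 2) = JX f χ := by
  have hN1 : (1 : ℝ) ≤ N := by exact_mod_cast Nat.pos_of_ne_zero (NeZero.ne N)
  have hq1 : (1 : ℝ) ≤ q := by exact_mod_cast Nat.pos_of_ne_zero (NeZero.ne q)
  have hs1 : (1 : ℝ) ≤ Real.sqrt N := by rw [Real.one_le_sqrt]; exact hN1
  obtain ⟨C, hC0, hC⟩ := coeff_bd f
  obtain ⟨K, -, hK⟩ := mellin2 1 C (by norm_num) (by norm_num)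
  obtain ⟨w', hw', hth⟩ := t_twist N 2 (by norm_num) f ε hf q χ hχ hq
  obtain ⟨F, hF1, hF2, hF3, -⟩ := hK (fun n => χ (n : ZMod q) * (qExpansion 1 f).coeff n)
    (Real.sqrt N * q) (by nlinarith) (by rw [W388.coeff_zero f, mul_zero])
    (fun n hn => by
      rw [norm_mul]
      have h1 := DirichletCharacter.norm_le_one χ (n : ZMod q)
      calc ‖χ (n : ZMod q)‖ * ‖(qExpansion 1 f).coeff n‖ ≤ 1 * ‖(qExpansion 1 f).coeff n‖ :=
            mul_le_mul_of_nonneg_right h1 (norm_nonneg _)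
        _ ≤ _ := by rw [one_mul]; exact hC n hn) w' hw'
    (fun t ht => by
      have := hth t ht
      rw [zpow_ofNat] at this
      exact this)
  have hinv : χ⁻¹ = χ := hχ2.inv
  refine ⟨F, ⟨hF1, fun s hs => ?_⟩, ?_⟩
  · rw [hF2 s (by linarith)]
    refine tsum_congr fun n => ?_
    have hre : (((qExpansion 1 f).coeff n).re : ℂ) = (qExpansion 1 f).coeff n := by
      apply Complex.ext
      · rw [Complex.ofReal_re]
      · rw [Complex.ofReal_im]; exact (hf.real n).symm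
    rcases Nat.eq_zero_or_pos n with rfl | hn
    · unfold W388.lamf
      rw [W388.coeff_zero f]
      simp
    · have hn' : (0 : ℝ) < n := by exact_mod_cast hn
      have hnc : (n : ℂ) ≠ 0 := by exact_mod_cast hn.ne'
      unfold W388.lamf
      have e1 : ((((2 : ℤ) : ℝ) - 1) / 2) = 1 / 2 := by norm_num
      rw [e1, Complex.ofReal_div, hre, Complex.ofReal_cpow hn'.le, neg_add, Complex.cpow_add _ _ hnc]
      push_cast
      rw [Complex.cpow_neg (n : ℂ) (1 / 2)]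
      ring
  · have h1 := link f (newf_fr hf) q hq χ hχ (F (1 / 2)) w'
      (fun X Y hX hY hXY => by
        rw [hinv]
        refine hF3 X Y hX hY ?_
        rw [hXY, mul_pow, Real.sq_sqrt (by linarith)])
    exact h1

lemma norm_gauss {q : ℕ} [NeZero q] {χ : DirichletCharacter ℂ q} (hχ : χ.IsPrimitive) :
    ‖gaussSum χ (stdAddChar (N := q))‖ = Real.sqrt q := by
  have h := Pool.Agent.K4H67.TV.norm_sq_gaussSum hχ
  rw [← h, Real.sqrt_sq (norm_nonneg _)]

/-- the twisted central value -/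
theorem lt_eq {f : Cf2 N} {ε : ℝ} (hf : W388.IsNewf N 2 f ε) {q : ℕ} [NeZero q]
    (hq : q.Coprime N) {χ : DirichletCharacter ℂ q} (hχ : χ.IsPrimitive) (hχ2 : χ.IsQuadratic)
    {L : ℂ → ℂ} (hL : IsLt f χ L) : ‖JX f χ‖ = Real.sqrt q * ‖L (1 / 2)‖ := by
  obtain ⟨L', h1, h2⟩ := exists_IsLt hf hq hχ hχ2
  rw [← h2, norm_mul, norm_gauss hχ, hL.unique h1]

end Pool.Agent.K4H13.CV
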