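import Pool.Agent.K4H13.CV.Ind
import Pool.Agent.K4H13.CV.Tw0

/-!
# Project CV, real twists: independence for both signs
-/

set_option autoImplicit false

open Complex Filter Topology Set UpperHalfPlane MatrixGroups CongruenceSubgroup

namespace Pool.Agent.K4H13.CV

open Pool.Agent.TH940 (prim prim_deriv Fr prim_fricke Pers prim_near prim_line exp_norm)
open Pool.Agent.Y18.BSD
open W388.LV (SF bf pet IsNewBasis)
open Pool.Agent.W347.LV (bf_sum bf_zero pet_sum_right pet_zero_right)

variable {N : ℕ} [NeZero N]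

/-- **Independence**: a combination of newforms of sign `+1` whose coefficients up to `100 N²`
prime to the level vanish is zero. -/
theorem twi_aux (hN : N.Prime) {B : Finset (Cf2 N)} (hB : IsNewBasis N 2 B) (F : Finset B)
    {s : ℝ} (hs : s = 1 ∨ s = -1) (hF : ∀ f ∈ F, W388.IsNewf N 2 f.1 s) (w : F → ℝ)
    (hw : ∀ n ∈ {n : ℕ | n ≤ 100 * N ^ 2 ∧ n.Coprime N}, ∑ f : F, w f * (co f.1.1 n).re = 0) :
    w = 0 := by
  set h : Cf2 N := ∑ g ∈ B, cc F w g • g with hh
  have hco : ∀ n, co h n = ∑ f : F, ((w f : ℝ) : ℂ) * co f.1.1 n := by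
    intro n
    have h1 := bf_sum (N := N) (k := 2) B (cc F w) n
    have h2 := cc_sum F w (fun g => co g n)
    exact h1.trans h2
  have hre : ∀ f : F, ∀ n, ((co f.1.1 n).re : ℂ) = co f.1.1 n := by
    intro f n
    apply Complex.ext
    · rw [Complex.ofReal_re]
    · rw [Complex.ofReal_im]; exact ((hF f.1 f.2).real n).symm
  have hco' : ∀ n, n ≤ 100 * N ^ 2 → n.Coprime N → co h n = 0 := by
    intro n h1 h2
    rw [hco]
    have h3 := hw n ⟨h1, h2⟩
    have h4 : ((∑ f : F, w f * (co f.1.1 n).re : ℝ) : ℂ) = 0 := by rw [h3]; simp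
    rw [← h4]
    push_cast
    exact Finset.sum_congr rfl fun f _ => by rw [hre f n]
  have hN' : ∀ m, m ≠ 0 → co h (N * m) = (s : ℂ) * co h m := by
    intro m hm
    rw [hco, hco, Finset.mul_sum]
    refine Finset.sum_congr rfl fun f _ => ?_
    have h1 := co_level (hF f.1 f.2) hN m hm
    have h2 := an N hN f.1.1 s (hF f.1 f.2)
    have h3 : co f.1.1 N = s := h2
    rw [h1, h3]
    ring
  have hall : ∀ n, n ≤ 100 * N ^ 2 → co h n = 0 := by
    intro n
    induction n using Nat.strong_induction_on with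
    | _ n ih =>
      intro hn
      rcases Nat.eq_zero_or_pos n with rfl | hn0
      · exact W388.coeff_zero h
      · by_cases hc : n.Coprime N
        · exact hco' n hn hc
        · have hd : N ∣ n := by
            by_contra hd
            exact hc ((Nat.Prime.coprime_iff_not_dvd hN).2 hd).symm
          obtain ⟨m, rfl⟩ := hd
          have hm : m ≠ 0 := by rintro rfl; simp at hn0
          rw [hN' m hm]
          have hlt : m < N * m := by
            have := hN.two_le
            nlinarith [Nat.pos_of_ne_zero hm]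
          rw [ih m hlt (hlt.le.trans hn), mul_zero]
  have hfr : Fr h (s : ℂ) := by
    intro τ τ' hτ
    rw [hh, ev_sum, ev_sum, Finset.mul_sum]
    have h1 := cc_sum F w (fun g => g τ')
    have h2 := cc_sum F w (fun g => -(s : ℂ) * (N : ℂ) * (τ : ℂ) ^ 2 * g τ)
    rw [h1]
    have h3 : ∑ g ∈ B, -(s : ℂ) * (N : ℂ) * (τ : ℂ) ^ 2 * (cc F w g * g τ) =
        ∑ g ∈ B, cc F w g * (-(s : ℂ) * (N : ℂ) * (τ : ℂ) ^ 2 * g τ) :=
      Finset.sum_congr rfl fun g _ => by ring
    rw [h3, h2]
    refine Finset.sum_congr rfl fun f _ => ?_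
    have h4 := newf_fr (hF f.1 f.2) τ τ' hτ
    rw [h4]
  have hzero : h = 0 := sturm red N hN h s (by rcases hs with rfl | rfl <;> simp) hfr hall
  funext f
  have hP := W388.LV.q_pet
  have h1 := pet_sum_right hP N 2 f.1.1 B (cc F w)
  have h2 : (∑ g ∈ B, cc F w g • g : Cf2 N) = 0 := hzero
  rw [h2, pet_zero_right hP] at h1
  have h3 : cc F w f.1.1 = ((w f : ℝ) : ℂ) := by
    unfold cc
    rw [dif_pos ⟨f.1.2, f.2⟩]
  rw [Finset.sum_eq_single f.1.1] at h1
  · rw [h3] at h1
    have h4 : (pet N 2 f.1.1 f.1.1) ≠ 0 := by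
      intro h5
      have h6 := ((hP N 2).2.2.2 f.1.1).2.2 (by
        intro h0
        have h7 : bf f.1.1 1 = 1 := (hF f.1 f.2).one
        rw [h0, bf_zero] at h7
        exact zero_ne_one h7)
      rw [h5] at h6
      simp at h6
    have h5 : ((w f : ℝ) : ℂ) = 0 := by
      rcases mul_eq_zero.1 h1.symm with h6 | h6
      · exact h6
      · exact absurd h6 h4
    exact_mod_cast h5
  · intro g hg hne
    rw [hB.orth f.1.1 f.1.2 g hg (Ne.symm hne), mul_zero]
  · intro hn
    exact absurd f.1.2 hn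

theorem twi : S_TWI := by
  intro N _ hN B hB F s hF w hw
  rcases F.eq_empty_or_nonempty with rfl | ⟨f, hf⟩
  · funext f
    exact absurd f.2 (Finset.notMem_empty _)
  · exact twi_aux hN hB F (hF f hf).sign hF w hw

end Pool.Agent.K4H13.CV
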