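import Pool.Agent.K4H13.CV.Tw0
import Pool.Agent.K4H13.CV.Bd

/-!
# Project CV, real twists: the Hecke translates and the reality
-/

set_option autoImplicit false

open Complex Filter Topology Set UpperHalfPlane MatrixGroups CongruenceSubgroup

namespace Pool.Agent.K4H13.CV

open Pool.Agent.TH940 (prim prim_deriv Fr prim_fricke Pers prim_near prim_line exp_norm)
open Pool.Agent.Y18.BSD
open W388.LV (SF bf pet IsNewBasis)

namespace TwmP

variable {N : ℕ} [NeZero N]

lemma den_cop {q : ℕ} [NeZero q] (hq : q.Coprime N) (v : ℤ) : ((v : ℚ) / q).den.Coprime N := by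
  rw [den_iff]
  refine ⟨q, hq, v, ?_⟩
  have : (q : ℚ) ≠ 0 := by exact_mod_cast NeZero.ne q
  field_simp

lemma quad_unit {q : ℕ} {χ : DirichletCharacter ℂ q} (hχ : χ.IsQuadratic) (u : (ZMod q)ˣ) :
    χ (u : ZMod q) = 1 ∨ χ (u : ZMod q) = -1 := by
  rcases hχ (u : ZMod q) with h | h | h
  · exfalso
    have h1 := χ.map_one
    have h2 : χ ((u : ZMod q) * ((u⁻¹ : (ZMod q)ˣ) : ZMod q)) = 1 := by
      rw [Units.mul_inv, χ.map_one]
    rw [map_mul, h, zero_mul] at h2
    exact zero_ne_one h2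
  · exact Or.inl h
  · exact Or.inr h

lemma sum_units {q : ℕ} [NeZero q] {χ : DirichletCharacter ℂ q} (hχ : χ ≠ 1) :
    ∑ u : (ZMod q)ˣ, χ (u : ZMod q) = 0 := by
  obtain ⟨a, ha⟩ := MulChar.ne_one_iff.1 hχ
  have h1 : ∑ u : (ZMod q)ˣ, χ (u : ZMod q) = χ (a : ZMod q) * ∑ u : (ZMod q)ˣ, χ (u : ZMod q) := by
    rw [Finset.mul_sum]
    rw [← Equiv.sum_comp (Equiv.mulLeft a) fun u : (ZMod q)ˣ => χ (u : ZMod q)]
    refine Finset.sum_congr rfl fun u _ => ?_
    rw [Equiv.coe_mulLeft, Units.val_mul, map_mul]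
  have h2 : (χ (a : ZMod q) - 1) * ∑ u : (ZMod q)ˣ, χ (u : ZMod q) = 0 := by
    rw [sub_mul, one_mul, ← h1, sub_self]
  rcases mul_eq_zero.1 h2 with h | h
  · exact absurd (sub_eq_zero.1 h) ha
  · exact h

lemma JX_eq {q : ℕ} [NeZero q] {χ : DirichletCharacter ℂ q} (hχ : χ ≠ 1) (f : Cf2 N) :
    JX f χ = ∑ u : (ZMod q)ˣ, χ (u : ZMod q) * (bv f (((u : ZMod q).val : ℚ) / q) - bv f 0) := by
  unfold JX
  simp only [mul_sub]
  rw [Finset.sum_sub_distrib, ← Finset.sum_mul, sum_units hχ, zero_mul, sub_zero]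

/-- complex conjugation -/
lemma prim_conj {f : Cf2 N} {ε : ℝ} (hf : W388.IsNewf N 2 f ε) {z : ℂ} (hz : 0 < z.im) :
    (starRingEnd ℂ) (prim f z) = prim f (-(starRingEnd ℂ) z) := by
  have hz' : 0 < (-(starRingEnd ℂ) z).im := by simpa using hz
  have h1 := (prim_hasSum f z hz)
  have h2 := prim_hasSum f _ hz'
  have h3 : HasSum (fun n : ℕ => (starRingEnd ℂ) (co f n / n *
      Complex.exp (2 * Real.pi * Complex.I * n * z))) ((starRingEnd ℂ) (prim f z)) :=
    h1.map (starRingEnd ℂ).toAddMonoidHom Complex.continuous_conj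
  refine h3.unique ?_
  convert h2 using 2 with n
  have e1 : (starRingEnd ℂ) (co f n) = co f n := by
    apply Complex.conj_eq_iff_im.2
    exact hf.real n
  rw [map_mul, map_div₀, e1, map_natCast, ← Complex.exp_conj]
  congr 2
  simp only [map_mul, Complex.conj_I, Complex.conj_ofReal, map_natCast, map_ofNat]
  ring

lemma bv_conj {f : Cf2 N} {ε : ℝ} (hf : W388.IsNewf N 2 f ε) (r : ℚ) (hr : r.den.Coprime N) :
    (starRingEnd ℂ) (bv f r) = bv f (-r) := by
  have h1 := bv_tendsto f (newf_fr hf) r hr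
  have h2 := bv_tendsto f (newf_fr hf) (-r) (by rwa [Rat.den_neg_eq_den])
  have h3 := (Complex.continuous_conj.tendsto _).comp h1
  refine tendsto_nhds_unique h3 (h2.congr' ?_)
  filter_upwards [self_mem_nhdsWithin] with y (hy : 0 < y)
  rw [Function.comp_apply, prim_conj hf]
  · congr 1
    push_cast
    simp only [map_add, map_mul, Complex.conj_I, Complex.conj_ofReal, map_ratCast]
    ring
  · simpa using hy

lemma bv_neg_val {f : Cf2 N} {q : ℕ} [NeZero q] (hq1 : 1 < q) (u : (ZMod q)ˣ) :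
    bv f (-(((u : ZMod q).val : ℚ) / q)) = bv f (((((-u : (ZMod q)ˣ) : ZMod q)).val : ℚ) / q) := by
  have hq : (q : ℚ) ≠ 0 := by exact_mod_cast NeZero.ne q
  haveI : Fact (1 < q) := ⟨hq1⟩
  have hu : (u : ZMod q) ≠ 0 := Units.ne_zero u
  have h1 : (((-u : (ZMod q)ˣ) : ZMod q)).val = q - (u : ZMod q).val := by
    rw [Units.val_neg, ZMod.neg_val, if_neg hu]
  rw [h1, Nat.cast_sub (ZMod.val_lt _).le]
  rw [← bv_period f (-(((u : ZMod q).val : ℚ) / q))]
  congr 1
  field_simp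
  ring

end TwmP

open TwmP

theorem twm : S_TWM := by
  intro N _ hN B hB q _ hq χ hχ hχ1 n hn
  have h0 := PPm.all hB n hn 1 (PP_one hB)
  have h1 : (fun f : B => co f.1 n * JX f.1 χ) = ∑ u : (ZMod q)ˣ, (fun f : B => χ (u : ZMod q) *
      (co f.1 n * (1 : B → ℂ) f * (bv f.1 (((u : ZMod q).val : ℚ) / q) - bv f.1 0))) := by
    funext f
    rw [Finset.sum_apply, JX_eq hχ1, Finset.mul_sum]
    refine Finset.sum_congr rfl fun u _ => ?_
    rw [Pi.one_apply]
    ring
  rw [h1]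
  refine (LL B).sum_mem fun u _ => ?_
  have h2 := h0 (((u : ZMod q).val : ℚ) / q) 0 (den_cop hq ((u : ZMod q).val : ℤ)) (by simp)
  rcases quad_unit hχ u with h | h
  · refine (congrArg (· ∈ LL B) ?_).mp h2
    funext f
    rw [h, one_mul]
  · refine (congrArg (· ∈ LL B) ?_).mp ((LL B).neg_mem h2)
    funext f
    rw [h, Pi.neg_apply]
    ring

theorem twr : S_TWR := by
  intro N _ hN f ε hf q _ hq χ hχ hχ1
  have hq1 : 1 < q := by
    rcases Nat.lt_or_ge 1 q with h | h
    · exact h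
    · exfalso
      have hq0 : 0 < q := Nat.pos_of_ne_zero (NeZero.ne q)
      have : q = 1 := by omega
      subst this
      exact hχ1 (DirichletCharacter.level_one χ)
  have key : (starRingEnd ℂ) (JX f χ) = χ (-1) * JX f χ := by
    unfold JX
    rw [map_sum, Finset.mul_sum]
    rw [← Equiv.sum_comp (Equiv.neg (ZMod q)ˣ)
      (fun u : (ZMod q)ˣ => χ (-1) * (χ (u : ZMod q) * bv f (((u : ZMod q).val : ℚ) / q)))]
    refine Finset.sum_congr rfl fun u _ => ?_
    have h5 := den_cop hq ((u : ZMod q).val : ℤ)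
    rw [Int.cast_natCast] at h5
    rw [map_mul, bv_conj hf _ h5, bv_neg_val hq1 u, Equiv.neg_apply]
    have e1 : χ (-1) * χ (((-u : (ZMod q)ˣ)) : ZMod q) = χ (u : ZMod q) := by
      rw [← map_mul, Units.val_neg]
      congr 1
      ring
    have e2 : (starRingEnd ℂ) (χ (u : ZMod q)) = χ (u : ZMod q) := by
      rcases quad_unit hχ u with h | h <;> rw [h] <;> simp
    rw [← mul_assoc, e1, e2]
  constructor
  · intro h
    rw [h, one_mul] at key
    exact Complex.conj_eq_iff_im.1 key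
  · intro h
    rw [h] at key
    have h1 := congrArg Complex.re key
    rw [Complex.conj_re, neg_one_mul, Complex.neg_re] at h1
    linarith

end Pool.Agent.K4H13.CV
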